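import Pool.Agent.H31.SW.TargetsL2
import Pool.Agent.H31.SW.Tools2

/-!
# Board swl_modules, row BU: a partition of unity with bumps at the integral points
-/

set_option autoImplicit false

open MeasureTheory Set Filter Complex Pool.Agent.H31.SW
open Pool.Agent.H29.DW (dg Rl lf)

namespace Pool.Agent.H70.SWL

/-- the bump on the real line; its integer translates add up to one -/
private noncomputable def bb (x : ℝ) : ℝ := Real.smoothTransition (x + 1) - Real.smoothTransition x

private lemma bb_zero {x : ℝ} (h : 1 ≤ |x|) : bb x = 0 := by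
  unfold bb
  rcases le_abs.1 h with h1 | h1
  · rw [Real.smoothTransition.one_of_one_le (by linarith),
      Real.smoothTransition.one_of_one_le h1, sub_self]
  · rw [Real.smoothTransition.zero_of_nonpos (by linarith),
      Real.smoothTransition.zero_of_nonpos (by linarith), sub_self]

private lemma bb_contDiff (n : ℕ) : ContDiff ℝ n bb := by
  have h1 : ContDiff ℝ n (fun x : ℝ => Real.smoothTransition (x + 1)) :=
    (Real.smoothTransition.contDiff (n := (n : ℕ∞))).comp (contDiff_id.add contDiff_const)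
  exact h1.sub (Real.smoothTransition.contDiff (n := (n : ℕ∞)))

/-- the two integral points next to `x` -/
private noncomputable def nb (x : ℝ) : Finset ℤ := {⌊x⌋, ⌊x⌋ + 1}

private lemma bb_off {x : ℝ} {m : ℤ} (hm : m ∉ nb x) : bb (x - m) = 0 := by
  apply bb_zero
  simp only [nb, Finset.mem_insert, Finset.mem_singleton, not_or] at hm
  have h1 := Int.floor_le x
  have h2 := Int.lt_floor_add_one x
  rcases lt_or_gt_of_ne hm.1 with h | h
  · have h3 : (m : ℝ) + 1 ≤ ⌊x⌋ := by exact_mod_cast h
    exact le_abs.2 (Or.inl (by linarith))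
  · have h3 : ⌊x⌋ + 1 < m := lt_of_le_of_ne h (Ne.symm hm.2)
    have h4 : (⌊x⌋ : ℝ) + 1 + 1 ≤ m := by exact_mod_cast h3
    exact le_abs.2 (Or.inr (by linarith))

private lemma bb_sum (x : ℝ) : ∑ m ∈ nb x, bb (x - m) = 1 := by
  have h1 := Int.floor_le x
  have h2 := Int.lt_floor_add_one x
  have hne : ⌊x⌋ ≠ ⌊x⌋ + 1 := by omega
  rw [nb, Finset.sum_pair hne]
  unfold bb
  push_cast
  rw [show x - ((⌊x⌋ : ℝ) + 1) + 1 = x - ⌊x⌋ by ring,
    Real.smoothTransition.one_of_one_le (x := x - ⌊x⌋ + 1) (by linarith),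
    Real.smoothTransition.zero_of_nonpos (x := x - ((⌊x⌋ : ℝ) + 1)) (by linarith)]
  ring

private noncomputable def bu (z : ℂ) : ℂ := ((bb z.re * bb z.im : ℝ) : ℂ)

private lemma bu_contDiff (n : ℕ) : ContDiff ℝ n bu := by
  have h1 : ContDiff ℝ n fun z : ℂ => bb z.re := (bb_contDiff n).comp Complex.reCLM.contDiff
  have h2 : ContDiff ℝ n fun z : ℂ => bb z.im := (bb_contDiff n).comp Complex.imCLM.contDiff
  exact Complex.ofRealCLM.contDiff.comp (h1.mul h2)

private lemma bu_zero {z : ℂ} (h : 2 < ‖z - 0‖) : bu z = 0 := by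
  rw [sub_zero] at h
  have h1 := Complex.norm_le_abs_re_add_abs_im z
  have h2 : 1 ≤ |z.re| ∨ 1 ≤ |z.im| := by
    by_contra hcon
    push Not at hcon
    linarith [hcon.1, hcon.2]
  unfold bu
  rcases h2 with h2 | h2
  · rw [bb_zero h2, zero_mul, Complex.ofReal_zero]
  · rw [bb_zero h2, mul_zero, Complex.ofReal_zero]

theorem pf_BU : W_BU := by
  classical
  refine ⟨bu, fun n => ?_, fun r z hz => ?_⟩
  · obtain ⟨C, hC, h⟩ := DS.of_contDiff (w₀ := 0) (ρ := 2) n bu_contDiff fun z hz => bu_zero hz
    refine ⟨C, hC, fun g => ?_⟩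
    have h1 := DB.comp_add h (-g) (S' := univ) fun z _ => mem_univ _
    have h2 : DS n C g 2 (fun z => bu (z + -g)) := by
      refine DB.mono h1 subset_rfl fun z _ => le_of_eq ?_
      unfold ind
      rw [sub_zero, ← sub_eq_add_neg]
    exact h2
  · have hterm : ∀ q : ℤ × ℤ, (if (r = true → q.2 = 0) then
        bu (z - ((q.1 : ℂ) + (q.2 : ℂ) * I)) else 0) =
        ((bb (z.re - q.1) * bb (z.im - q.2) : ℝ) : ℂ) := by
      intro q
      have h1 : bu (z - ((q.1 : ℂ) + (q.2 : ℂ) * I)) =
          ((bb (z.re - q.1) * bb (z.im - q.2) : ℝ) : ℂ) := by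
        unfold bu
        simp
      split_ifs with h
      · exact h1
      · have h2 : r = true ∧ q.2 ≠ 0 := by
          by_contra hcon
          exact h fun hr => by
            by_contra h3
            exact hcon ⟨hr, h3⟩
        have h3 : z.im = 0 := hz h2.1
        have h4 : bb (z.im - q.2) = 0 := by
          apply bb_zero
          rw [h3, zero_sub, abs_neg]
          exact_mod_cast Int.one_le_abs h2.2
        rw [h4, mul_zero, Complex.ofReal_zero]
    simp only [hterm]
    have hs : ∑ q ∈ nb z.re ×ˢ nb z.im, ((bb (z.re - q.1) * bb (z.im - q.2) : ℝ) : ℂ) = 1 := by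
      rw [← Complex.ofReal_sum, Finset.sum_product]
      have h1 : ∀ m ∈ nb z.re, ∑ n ∈ nb z.im, bb (z.re - m) * bb (z.im - n) =
          bb (z.re - m) := by
        intro m _
        rw [← Finset.mul_sum, bb_sum, mul_one]
      rw [Finset.sum_congr rfl h1, bb_sum, Complex.ofReal_one]
    rw [← hs]
    refine hasSum_sum_of_ne_finset_zero fun q hq => ?_
    rw [Finset.mem_product, not_and_or] at hq
    rcases hq with hq | hq
    · rw [bb_off hq, zero_mul, Complex.ofReal_zero]
    · rw [bb_off hq, mul_zero, Complex.ofReal_zero]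

end Pool.Agent.H70.SWL
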