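import Pool.Agent.H31.SW.TargetsL
import Pool.Agent.H31.SW.Tools

/-!
# Board swl_modules, row OI: the second derivative test (by squaring the integral)
-/

set_option autoImplicit false

open MeasureTheory Set Filter Complex Pool.Agent.H31.SW
open Pool.Agent.H29.DW (dg Rl lf)
open scoped Topology Convolution

namespace Pool.Agent.H70.SWL

section square

variable {E : Type} [NormedAddCommGroup E] [NormedSpace ℝ E] [MeasurableSpace E] [BorelSpace E]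
  [FiniteDimensional ℝ E] (μ : Measure E) [μ.IsAddHaarMeasure]

/-- the square of an integral -/
private theorem oi_sq {f : E → ℂ} (hf : Continuous f) (hc : HasCompactSupport f) {d : ℕ}
    (hd : Module.finrank ℝ E = d) (hd3 : d < 3) {R B : ℝ} (hR : 0 < R)
    (h : ∀ u : E, ‖∫ w, f (w + u) * (starRingEnd ℂ) (f w) ∂μ‖ ≤
      B * (1 + R * ‖u‖) ^ (-(3 : ℝ))) :
    ‖∫ w, f w ∂μ‖ ^ 2 ≤ B * ((R ^ d)⁻¹ * ∫ x : E, (1 + ‖x‖) ^ (-(3 : ℝ)) ∂μ) := by
  have hfi : Integrable f μ := hf.integrable_of_hasCompactSupport hc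
  have hFi : Integrable (fun t => (starRingEnd ℂ) (f (-t))) μ := by
    have h1 := hfi.comp_neg
    exact (Complex.conjLIE.toContinuousLinearEquiv.toContinuousLinearMap).integrable_comp h1
  have h1 := integral_convolution (μ := μ) (ν := μ) (ContinuousLinearMap.mul ℝ ℂ) hFi hfi
  have h2 : ∀ x, ((fun t => (starRingEnd ℂ) (f (-t))) ⋆[ContinuousLinearMap.mul ℝ ℂ, μ] f) x =
      ∫ w, f (w + x) * (starRingEnd ℂ) (f w) ∂μ := by
    intro x
    unfold convolution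
    rw [← integral_neg_eq_self (fun w => f (w + x) * (starRingEnd ℂ) (f w))]
    refine integral_congr_ae (ae_of_all _ fun t => ?_)
    simp only [ContinuousLinearMap.mul_apply']
    rw [mul_comm, show x - t = -t + x by abel]
  have h3 : ∫ t, (starRingEnd ℂ) (f (-t)) ∂μ = (starRingEnd ℂ) (∫ w, f w ∂μ) := by
    rw [integral_conj, integral_neg_eq_self (fun w => f w)]
  rw [h3, ContinuousLinearMap.mul_apply'] at h1
  have h4 : ‖∫ w, f w ∂μ‖ ^ 2 = ‖(starRingEnd ℂ) (∫ w, f w ∂μ) * ∫ w, f w ∂μ‖ := by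
    rw [norm_mul, RCLike.norm_conj, sq]
  have hint : Integrable (fun x : E => (1 + ‖x‖) ^ (-(3 : ℝ))) μ :=
    integrable_one_add_norm (by rw [hd]; exact_mod_cast hd3)
  have h5 : ∫ x : E, B * (1 + R * ‖x‖) ^ (-(3 : ℝ)) ∂μ =
      B * ((R ^ d)⁻¹ * ∫ x : E, (1 + ‖x‖) ^ (-(3 : ℝ)) ∂μ) := by
    rw [integral_const_mul]
    have h6 := Measure.integral_comp_smul μ (fun x : E => (1 + ‖x‖) ^ (-(3 : ℝ))) R
    rw [hd, abs_of_pos (by positivity), smul_eq_mul] at h6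
    rw [← h6]
    congr 1
    refine integral_congr_ae (ae_of_all _ fun x => ?_)
    simp only
    rw [norm_smul, Real.norm_of_nonneg hR.le]
  have hint2 : Integrable (fun x : E => B * (1 + R * ‖x‖) ^ (-(3 : ℝ))) μ := by
    refine Integrable.const_mul ?_ _
    have h6 := hint.comp_smul (R := R) hR.ne'
    refine h6.congr (ae_of_all _ fun x => ?_)
    simp only
    rw [norm_smul, Real.norm_of_nonneg hR.le]
  rw [h4, ← h1, ← h5]
  refine norm_integral_le_of_norm_le hint2 (ae_of_all _ fun x => ?_)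
  rw [h2]
  exact h x

end square

/-- a lower bound for the differences of `H` -/
private theorem oi_diff {w₀ k : ℂ} {H H' : ℂ → ℂ} {ρ : ℝ}
    (h : ∀ w ∈ Metric.ball w₀ ρ, HasDerivAt H (H' w) w ∧ ‖H' w - k‖ ≤ ‖k‖ / 2)
    {w z : ℂ} (hw : w ∈ Metric.ball w₀ ρ) (hz : z ∈ Metric.ball w₀ ρ) :
    ‖k‖ / 2 * ‖z - w‖ ≤ ‖H z - H w‖ := by
  have h1 : ∀ x ∈ Metric.ball w₀ ρ, HasDerivWithinAt (fun x => H x - k * x) (H' x - k)
      (Metric.ball w₀ ρ) x := by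
    intro x hx
    have h2 : HasDerivAt (fun x => H x - k * x) (H' x - k * 1) x :=
      (h x hx).1.sub ((hasDerivAt_id x).const_mul k)
    rw [mul_one] at h2
    exact h2.hasDerivWithinAt
  have h3 := Convex.norm_image_sub_le_of_norm_hasDerivWithin_le h1
    (fun x hx => (h x hx).2) (convex_ball w₀ ρ) hw hz
  have h4 : k * (z - w) = (H z - H w) - ((H z - k * z) - (H w - k * w)) := by ring
  have h5 : ‖k‖ * ‖z - w‖ ≤ ‖H z - H w‖ + ‖k‖ / 2 * ‖z - w‖ := by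
    rw [← norm_mul, h4]
    exact (norm_sub_le _ _).trans (add_le_add le_rfl h3)
  linarith

/-- the bound `(1 + s) ^ (-3)` -/
private theorem oi_cube {A D s x : ℝ} (hs : 0 ≤ s) (hA : 0 ≤ A) (hD : 0 ≤ D) (h1 : x ≤ A)
    (h2 : 0 < s → x ≤ D / s ^ 3) : x ≤ 8 * max A D * (1 + s) ^ (-(3 : ℝ)) := by
  have hp : (1 + s) ^ (-(3 : ℝ)) = ((1 + s) ^ 3)⁻¹ := by
    rw [Real.rpow_neg (by linarith)]
    congr 1
    exact_mod_cast Real.rpow_natCast (1 + s) 3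
  rw [hp, ← div_eq_mul_inv, le_div_iff₀ (by positivity)]
  have hM : 0 ≤ max A D := hA.trans (le_max_left _ _)
  by_cases hs1 : s ≤ 1
  · have h3 : (1 + s) ^ 3 ≤ 8 := by
      calc (1 + s) ^ 3 ≤ (1 + 1) ^ 3 := by gcongr
        _ = 8 := by norm_num
    calc x * (1 + s) ^ 3 ≤ max A D * (1 + s) ^ 3 := by
          gcongr
          exact h1.trans (le_max_left _ _)
      _ ≤ max A D * 8 := by gcongr
      _ = 8 * max A D := by ring
  · push Not at hs1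
    have hs0 : 0 < s := by linarith
    have h3 : (1 + s) ^ 3 ≤ 8 * s ^ 3 := by
      calc (1 + s) ^ 3 ≤ (s + s) ^ 3 := by gcongr
        _ = 8 * s ^ 3 := by ring
    calc x * (1 + s) ^ 3 ≤ (D / s ^ 3) * (1 + s) ^ 3 := by
          gcongr
          exact h2 hs0
      _ ≤ (D / s ^ 3) * (8 * s ^ 3) := by
          gcongr
      _ = 8 * D := by
          field_simp
      _ ≤ 8 * max A D := by
          gcongr
          exact le_max_right _ _

section core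

variable {ρ : ℝ} {r : Bool} {w₀ Λ c k : ℂ} {Ψ H H' g : ℂ → ℂ} {G : ℝ}

/-- the inner integral -/
private theorem oi_inner (hρ : 0 < ρ) {C₁ : ℝ} (hC₁ : 0 ≤ C₁)
    (hNS : ∀ (r : Bool) (w₀ : ℂ) (Ψ p g : ℂ → ℂ)
      (G P : ℝ), 0 ≤ G → 0 < P → (∀ w ∈ Metric.ball w₀ (2 * ρ), HasDerivAt Ψ (p w) w) →
      (∀ w ∈ Metric.ball w₀ (2 * ρ), Rl r w → Rl r (p w)) →
      (∀ w ∈ Metric.ball w₀ (2 * ρ), P ≤ ‖p w‖) → DS 3 G w₀ ρ g →
      ‖itg r (fun w => g w * EE (Ψ w))‖ ≤ C₁ * G / P ^ 3)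
    (hG : 0 ≤ G) (hk : 1 ≤ ‖k‖) (hΛ : 0 < ‖Λ‖)
    (hΨ : ∀ w ∈ Metric.ball w₀ (4 * ρ), HasDerivAt Ψ (Λ * (H w + c)) w)
    (hH : ∀ w ∈ Metric.ball w₀ (4 * ρ), HasDerivAt H (H' w) w ∧ ‖H' w - k‖ ≤ ‖k‖ / 2)
    (hR : ∀ w ∈ Metric.ball w₀ (4 * ρ), Rl r w → Rl r (Λ * (H w + c)))
    (hg : DS 3 G w₀ ρ g) (u : ℂ) (hu : Rl r u) :
    ‖itg r (fun w => (g (w + u) * EE (Ψ (w + u))) * (starRingEnd ℂ) (g w * EE (Ψ w)))‖ ≤
      (8 * max ((2 * ρ + 8 * ρ ^ 2)) (64 * C₁)) * G ^ 2 * (1 + ‖Λ‖ * ‖u‖) ^ (-(3 : ℝ)) := by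
  have hgn : ∀ w, ‖g w‖ ≤ G := fun w => DS.norm_le hG hg w
  have hEE : ∀ z : ℂ, ‖EE z‖ = 1 := norm_EE
  -- the trivial bound
  have ht : ‖itg r (fun w => (g (w + u) * EE (Ψ (w + u))) *
      (starRingEnd ℂ) (g w * EE (Ψ w)))‖ ≤ (2 * ρ + 8 * ρ ^ 2) * G ^ 2 := by
    refine norm_itg_le (w₀ := w₀) hρ.le (by positivity) (fun w => ?_) fun w hw => ?_
    · rw [norm_mul, RCLike.norm_conj, norm_mul, norm_mul, hEE, hEE, mul_one, mul_one, sq]
      exact mul_le_mul (hgn _) (hgn _) (norm_nonneg _) hG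
    · rw [DS.eq_zero hg hw, zero_mul, map_zero, mul_zero]
  have hnn : 0 ≤ (8 * max ((2 * ρ + 8 * ρ ^ 2)) (64 * C₁)) * G ^ 2 *
      (1 + ‖Λ‖ * ‖u‖) ^ (-(3 : ℝ)) := by positivity
  by_cases hbig : 2 * ρ < ‖u‖
  · have h0 : (fun w => (g (w + u) * EE (Ψ (w + u))) * (starRingEnd ℂ) (g w * EE (Ψ w))) =
        fun _ => (0 : ℂ) := by
      funext w
      by_cases hw : ρ < ‖w - w₀‖
      · rw [DS.eq_zero hg hw, zero_mul, map_zero, mul_zero]
      · have h1 : ρ < ‖w + u - w₀‖ := by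
          have h2 : u = (w + u - w₀) - (w - w₀) := by ring
          have h3 : ‖u‖ ≤ ‖w + u - w₀‖ + ‖w - w₀‖ := by
            conv_lhs => rw [h2]
            exact norm_sub_le _ _
          linarith [not_lt.1 hw]
        rw [DS.eq_zero hg h1, zero_mul, zero_mul]
    rw [h0]
    have h1 : itg r (fun _ => (0 : ℂ)) = 0 := by
      cases r
      · rw [itg_false, integral_zero, mul_zero]
      · rw [itg_true, integral_zero]
    rw [h1, norm_zero]
    exact hnn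
  push Not at hbig
  have hball : ∀ w ∈ Metric.ball w₀ (2 * ρ), w ∈ Metric.ball w₀ (4 * ρ) ∧
      w + u ∈ Metric.ball w₀ (4 * ρ) := by
    intro w hw
    rw [Metric.mem_ball, dist_eq_norm] at hw
    rw [Metric.mem_ball, Metric.mem_ball, dist_eq_norm, dist_eq_norm]
    refine ⟨by linarith, ?_⟩
    calc ‖w + u - w₀‖ = ‖(w - w₀) + u‖ := by ring_nf
      _ ≤ ‖w - w₀‖ + ‖u‖ := norm_add_le _ _
      _ < 4 * ρ := by linarith
  have hcube : 0 < ‖Λ‖ * ‖u‖ → ‖itg r (fun w => (g (w + u) * EE (Ψ (w + u))) *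
      (starRingEnd ℂ) (g w * EE (Ψ w)))‖ ≤ (64 * C₁ * G ^ 2) / (‖Λ‖ * ‖u‖) ^ 3 := by
    intro hs
    have h1 : (fun w => (g (w + u) * EE (Ψ (w + u))) * (starRingEnd ℂ) (g w * EE (Ψ w))) =
        fun w => dif u g w * EE (Ψ (w + u) - Ψ w) := by
      funext w
      rw [EE_sub, map_mul]
      unfold dif
      ring
    rw [h1]
    have h2 := hNS r w₀ (fun w => Ψ (w + u) - Ψ w) (fun w => Λ * (H (w + u) - H w)) (dif u g)
      (2 ^ 3 * (G * G)) (‖Λ‖ * ‖u‖ / 2) (by positivity) (by positivity) (fun w hw => ?_)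
      (fun w hw hr => ?_) (fun w hw => ?_) (DS.dif hG hg u)
    · refine h2.trans (le_of_eq ?_)
      field_simp
      ring
    · obtain ⟨ha, hb⟩ := hball w hw
      have h3 : HasDerivAt (fun w => Ψ (w + u)) (Λ * (H (w + u) + c)) w :=
        (hΨ _ hb).comp_add_const w u
      have h4 := h3.sub (hΨ _ ha)
      have h5 : Λ * (H (w + u) - H w) = Λ * (H (w + u) + c) - Λ * (H w + c) := by ring
      rw [h5]
      exact h4
    · obtain ⟨ha, hb⟩ := hball w hw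
      have h5 : Λ * (H (w + u) - H w) = Λ * (H (w + u) + c) - Λ * (H w + c) := by ring
      rw [h5]
      exact Rl_sub (hR _ hb (Rl_add hr hu)) (hR _ ha hr)
    · obtain ⟨ha, hb⟩ := hball w hw
      have h6 := oi_diff hH ha hb
      rw [add_sub_cancel_left] at h6
      rw [norm_mul]
      have h7 : ‖u‖ / 2 ≤ ‖H (w + u) - H w‖ := by
        refine le_trans ?_ h6
        have := norm_nonneg u
        nlinarith
      calc ‖Λ‖ * ‖u‖ / 2 = ‖Λ‖ * (‖u‖ / 2) := by ring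
        _ ≤ ‖Λ‖ * ‖H (w + u) - H w‖ := by gcongr
  have h3 := oi_cube (s := ‖Λ‖ * ‖u‖) (by positivity) (by positivity) (by positivity) ht hcube
  refine h3.trans (le_of_eq ?_)
  have h4 : max ((2 * ρ + 8 * ρ ^ 2) * G ^ 2) (64 * C₁ * G ^ 2) =
      max (2 * ρ + 8 * ρ ^ 2) (64 * C₁) * G ^ 2 := by
    rw [max_mul_of_nonneg _ _ (by positivity)]
  rw [h4]
  ring

private theorem oi_cont (hρ : 0 < ρ) (hg : DS 3 G w₀ ρ g)
    (hΨ : ∀ w ∈ Metric.ball w₀ (4 * ρ), HasDerivAt Ψ (Λ * (H w + c)) w) :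
    Continuous (fun w => g w * EE (Ψ w)) := by
  rw [continuous_iff_continuousAt]
  intro w
  by_cases hw : ‖w - w₀‖ ≤ ρ
  · have h1 : w ∈ Metric.ball w₀ (4 * ρ) := by
      rw [Metric.mem_ball, dist_eq_norm]
      linarith
    exact (DS.continuous hg).continuousAt.mul
      (continuous_EE.continuousAt.comp (hΨ w h1).continuousAt)
  · push Not at hw
    have hopen : IsOpen {z : ℂ | ρ < ‖z - w₀‖} := isOpen_lt continuous_const (by fun_prop)
    have h1 : (fun _ : ℂ => (0 : ℂ)) =ᶠ[𝓝 w] fun w => g w * EE (Ψ w) := by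
      filter_upwards [hopen.mem_nhds hw] with z hz
      rw [DS.eq_zero hg hz, zero_mul]
    exact continuousAt_const.congr h1

end core

theorem pf_OI (hNS : W_NS) : W_OI := by
  intro ρ hρ
  obtain ⟨C₁, hC₁, hN⟩ := hNS 3 ρ hρ
  obtain ⟨B, hB⟩ : ∃ B : ℝ, B = 8 * max ((2 * ρ + 8 * ρ ^ 2)) (64 * C₁) := ⟨_, rfl⟩
  have hB0 : 0 ≤ B := by rw [hB]; positivity
  obtain ⟨I₁, hI₁⟩ : ∃ I : ℝ, I = ∫ x : ℝ, (1 + ‖x‖) ^ (-(3 : ℝ)) := ⟨_, rfl⟩
  obtain ⟨I₂, hI₂⟩ : ∃ I : ℝ, I = ∫ x : ℂ, (1 + ‖x‖) ^ (-(3 : ℝ)) := ⟨_, rfl⟩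
  have hI₁0 : 0 ≤ I₁ := by
    rw [hI₁]
    exact integral_nonneg fun x => by positivity
  have hI₂0 : 0 ≤ I₂ := by
    rw [hI₂]
    exact integral_nonneg fun x => by positivity
  obtain ⟨D, hD⟩ : ∃ D : ℝ, D = 2 * (2 * ρ + 8 * ρ ^ 2) + Real.sqrt (2 * B * I₁) +
    Real.sqrt (16 * B * I₂) := ⟨_, rfl⟩
  have hs1 := Real.sqrt_nonneg (2 * B * I₁)
  have hs2 := Real.sqrt_nonneg (16 * B * I₂)
  have hD0 : 0 ≤ D := by rw [hD]; positivity
  refine ⟨D, hD0, fun r w₀ Λ c k Ψ H H' g G hG hk hΨ hH hR hg => ?_⟩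
  have hgn : ∀ w, ‖g w‖ ≤ G := fun w => DS.norm_le hG hg w
  by_cases hΛ : ‖Λ‖ ≤ 1
  · -- the trivial bound
    have ht : ‖itg r (fun w => g w * EE (Ψ w))‖ ≤ (2 * ρ + 8 * ρ ^ 2) * G := by
      refine norm_itg_le (w₀ := w₀) hρ.le hG (fun w => ?_) fun w hw => ?_
      · rw [norm_mul, norm_EE, mul_one]
        exact hgn w
      · rw [DS.eq_zero hg hw, zero_mul]
    have h1 : (1 / 2 : ℝ) ≤ (1 + ‖Λ‖) ^ (-(dg r : ℝ) / 2) := by
      have hd : (dg r : ℝ) ≤ 2 := by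
        unfold Pool.Agent.H29.DW.dg
        split_ifs <;> norm_num
      calc (1 / 2 : ℝ) = (2 : ℝ) ^ (-(1 : ℝ)) := by
            rw [Real.rpow_neg_one]
            norm_num
        _ ≤ (1 + ‖Λ‖) ^ (-(1 : ℝ)) := by
            refine Real.rpow_le_rpow_of_nonpos (by positivity) (by linarith) (by norm_num)
        _ ≤ (1 + ‖Λ‖) ^ (-(dg r : ℝ) / 2) := by
            refine Real.rpow_le_rpow_of_exponent_le (by linarith [norm_nonneg Λ]) ?_
            linarith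
    calc ‖itg r (fun w => g w * EE (Ψ w))‖ ≤ (2 * ρ + 8 * ρ ^ 2) * G := ht
      _ = 2 * (2 * ρ + 8 * ρ ^ 2) * G * (1 / 2) := by ring
      _ ≤ D * G * (1 + ‖Λ‖) ^ (-(dg r : ℝ) / 2) := by
          have h2 : 2 * (2 * ρ + 8 * ρ ^ 2) ≤ D := by rw [hD]; linarith
          gcongr
  push Not at hΛ
  have hΛ0 : 0 < ‖Λ‖ := by linarith
  have hcont := oi_cont hρ hg hΨ
  have hf0 : ∀ w, ρ < ‖w - w₀‖ → g w * EE (Ψ w) = 0 := fun w hw => by
    rw [DS.eq_zero hg hw, zero_mul]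
  have hinner := oi_inner (r := r) (c := c) hρ hC₁ hN hG hk hΛ0 hΨ hH hR hg
  rw [← hB] at hinner
  cases r with
  | true =>
    have hc1 : Continuous (fun x : ℝ => g x * EE (Ψ x)) :=
      hcont.comp Complex.continuous_ofReal
    have hcs : HasCompactSupport (fun x : ℝ => g x * EE (Ψ x)) := by
      refine HasCompactSupport.intro (isCompact_closedBall w₀.re ρ) fun x hx => hf0 _ ?_
      rw [Metric.mem_closedBall, Real.dist_eq, not_le] at hx
      refine hx.trans_le ?_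
      have h1 := Complex.abs_re_le_norm ((x : ℂ) - w₀)
      simpa using h1
    have h1 := oi_sq (volume : Measure ℝ) hc1 hcs (d := 1) (by simp) (by norm_num)
      (R := ‖Λ‖) (B := B * G ^ 2) hΛ0 (fun u => by
        have h2 := hinner (u : ℂ) (Rl_ofReal true u)
        rw [itg_true, Complex.norm_real] at h2
        simp only [Complex.ofReal_add]
        exact h2)
    rw [← hI₁] at h1
    rw [itg_true]
    have h2 : ((dg true : ℕ) : ℝ) = 1 := by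
      simp [Pool.Agent.H29.DW.dg]
    rw [h2]
    have h3 : (1 + ‖Λ‖) ^ (-(1 : ℝ) / 2) = (Real.sqrt (1 + ‖Λ‖))⁻¹ := by
      rw [neg_div, Real.rpow_neg (by positivity), ← Real.sqrt_eq_rpow]
    rw [h3]
    have h4 : ‖∫ w : ℝ, g w * EE (Ψ w)‖ ^ 2 ≤
        (Real.sqrt (2 * B * I₁) * G * (Real.sqrt (1 + ‖Λ‖))⁻¹) ^ 2 := by
      rw [mul_pow, mul_pow, Real.sq_sqrt (by positivity), inv_pow, Real.sq_sqrt (by positivity)]
      refine h1.trans ?_
      have h5 : (‖Λ‖ ^ 1)⁻¹ ≤ 2 * (1 + ‖Λ‖)⁻¹ := by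
        rw [pow_one, ← div_eq_mul_inv, inv_eq_one_div, div_le_div_iff₀ hΛ0 (by positivity)]
        linarith
      calc B * G ^ 2 * ((‖Λ‖ ^ 1)⁻¹ * I₁) ≤ B * G ^ 2 * ((2 * (1 + ‖Λ‖)⁻¹) * I₁) := by gcongr
        _ = 2 * B * I₁ * G ^ 2 * (1 + ‖Λ‖)⁻¹ := by ring
    have h5 := abs_le_of_sq_le_sq h4 (by positivity)
    rw [abs_of_nonneg (norm_nonneg _)] at h5
    refine h5.trans ?_
    have h6 : Real.sqrt (2 * B * I₁) ≤ D := by rw [hD]; nlinarith
    gcongr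
  | false =>
    have hcs : HasCompactSupport (fun w : ℂ => g w * EE (Ψ w)) := by
      refine HasCompactSupport.intro (isCompact_closedBall w₀ ρ) fun x hx => hf0 _ ?_
      rw [Metric.mem_closedBall, dist_eq_norm, not_le] at hx
      exact hx
    have h1 := oi_sq (volume : Measure ℂ) hcont hcs (d := 2) Complex.finrank_real_complex
      (by norm_num) (R := ‖Λ‖) (B := B * G ^ 2) hΛ0 (fun u => by
        have h2 := hinner u (Rl_false u)
        rw [itg_false, norm_mul, Complex.norm_ofNat] at h2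
        refine le_trans ?_ h2
        have := norm_nonneg (∫ w : ℂ, (g (w + u) * EE (Ψ (w + u))) *
          (starRingEnd ℂ) (g w * EE (Ψ w)))
        linarith)
    rw [← hI₂] at h1
    rw [itg_false, norm_mul, Complex.norm_ofNat]
    have h2 : ((dg false : ℕ) : ℝ) = 2 := by
      simp [Pool.Agent.H29.DW.dg]
    rw [h2]
    have h3 : (1 + ‖Λ‖) ^ (-(2 : ℝ) / 2) = (1 + ‖Λ‖)⁻¹ := by
      rw [show (-(2 : ℝ) / 2) = -1 by norm_num, Real.rpow_neg_one]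
    rw [h3]
    have h4 : (2 * ‖∫ w : ℂ, g w * EE (Ψ w)‖) ^ 2 ≤
        (Real.sqrt (16 * B * I₂) * G * (1 + ‖Λ‖)⁻¹) ^ 2 := by
      rw [mul_pow, mul_pow, mul_pow, Real.sq_sqrt (by positivity), inv_pow]
      have h5 : (‖Λ‖ ^ 2)⁻¹ ≤ 4 * ((1 + ‖Λ‖) ^ 2)⁻¹ := by
        rw [← div_eq_mul_inv, inv_eq_one_div, div_le_div_iff₀ (by positivity) (by positivity)]
        nlinarith
      calc 2 ^ 2 * ‖∫ w : ℂ, g w * EE (Ψ w)‖ ^ 2 ≤ 2 ^ 2 * (B * G ^ 2 * ((‖Λ‖ ^ 2)⁻¹ * I₂)) := by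
            gcongr
        _ ≤ 2 ^ 2 * (B * G ^ 2 * ((4 * ((1 + ‖Λ‖) ^ 2)⁻¹) * I₂)) := by gcongr
        _ = 16 * B * I₂ * G ^ 2 * ((1 + ‖Λ‖) ^ 2)⁻¹ := by ring
    have h5 := abs_le_of_sq_le_sq h4 (by positivity)
    rw [abs_of_nonneg (by positivity)] at h5
    refine h5.trans ?_
    have h6 : Real.sqrt (16 * B * I₂) ≤ D := by rw [hD]; nlinarith
    gcongr

end Pool.Agent.H70.SWL
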