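import Pool.Agent.H31.SW.TargetsA
import Pool.Agent.H61.DW.UP

/-!
# Board swl_modules, row UP: unfolding for general local test functions

A copy of `Pool/Agent/H61/DW/UP.lean` and of parts of `Pool/Agent/H61/DW/ROT.lean` with the product
`pF G` of general local functions instead of `Wg cp H pb`.
-/

set_option autoImplicit false

open NumberField NumberField.InfinitePlace NumberField.Units
  NumberField.Units.dirichletUnitTheorem MeasureTheory Set Filter Complex
open scoped nonZeroDivisors ENNReal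

namespace Pool.Agent.H70.SWL

open Pool.Agent.H25.HK Pool.Agent.H23.LB Pool.Agent.H23.LC
open Pool.Agent.H28.RC (Rep ft idl)
open Pool.Agent.H29.DW
open Pool.Agent.H31.SW (pF Tf WG W_UP)
open Pool.Agent.H61.DW (rot_p Gk class_inf om_meas wt_sum wt_fin sum_cls yMz_meas)
open Pool.Agent.H35.GLB (ek_norm ek_meas An_fin B0 Rk Rk_meas Rk_fin zl norm_idl yM_zl cpow_norm
  ec_zl_pos yc_cont)

section
open scoped Classical

variable {K : Type} [Field K] [NumberField K] {G : InfinitePlace K → ℂ → ℂ}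

private theorem pF_meas (hG : Tf G) (x : K) (s : Bool) :
    Measurable (fun q : (InfinitePlace K → ℝ) × (InfinitePlace K → ℝ) =>
      pF G q.1 (om s q.2) x) := by
  unfold pF
  refine Finset.measurable_prod _ fun v _ => ?_
  have h0 : Measurable (fun q : (InfinitePlace K → ℝ) × (InfinitePlace K → ℝ) =>
      wv v x q.1 (om s q.2)) := by
    unfold wv
    have h1 : Measurable (fun q : (InfinitePlace K → ℝ) × (InfinitePlace K → ℝ) =>
      om s q.2 v) := (om_meas s v).comp measurable_snd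
    fun_prop
  exact (hG.meas v).comp h0

private theorem pF_le_one (hG : Tf G) (x : K) (y : InfinitePlace K → ℝ)
    (ω : InfinitePlace K → ℂ) : ‖pF G y ω x‖ ≤ 1 := by
  unfold pF
  rw [norm_prod]
  exact Finset.prod_le_one (fun v _ => norm_nonneg _) fun v _ => hG.norm v _

/-- the bound by the indicator of a region -/
private theorem pF_bd (hG : Tf G) (x : K) (hx : x ≠ 0) (y : InfinitePlace K → ℝ) (s : Bool)
    (θ : InfinitePlace K → ℝ) :
    ‖pF G y (om s θ) x‖ₑ ≤
      if B0 K (1 / 16) (fun v => y v + 2 * Real.log (v x)) then 1 else 0 := by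
  by_cases h : pF G y (om s θ) x = 0
  · rw [h, enorm_zero]
    exact bot_le
  · have h1 : B0 K (1 / 16) (fun v => y v + 2 * Real.log (v x)) := by
      intro v
      have hv : 0 < v x := by
        rw [InfinitePlace.pos_iff]
        exact hx
      have h3 : ‖wv v x y (om s θ) - 1‖ ≤ 1 / 16 := by
        by_contra hcon
        apply h
        unfold pF
        exact Finset.prod_eq_zero (Finset.mem_univ v) (hG.supp v _ (not_le.1 hcon))
      have h4 : ‖wv v x y (om s θ)‖ = Real.exp ((y v + 2 * Real.log (v x)) / 2) := by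
        rw [norm_wv v x y (Pos_om s θ), add_div, Real.exp_add,
          mul_div_cancel_left₀ _ (two_ne_zero), Real.exp_log hv]
        ring
      have h5 := abs_norm_sub_norm_le (wv v x y (om s θ)) 1
      rw [h4, norm_one] at h5
      exact h5.trans h3
    rw [if_pos h1, ← ofReal_norm, ← ENNReal.ofReal_one]
    exact ENNReal.ofReal_le_ofReal (pF_le_one hG x y _)

/-! ### The kernel -/

variable (K) in
/-- the kernel -/
private noncomputable def Pg (G : InfinitePlace K → ℂ → ℂ) (k : InfinitePlace K → ℤ)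
    (ν : InfinitePlace K → ℝ) (t : ℝ) (p : logSpace K × ℝ) : ℂ :=
  ec K ν p.1 * cexp (t * p.2 * I) * Gk K G k (yc K p.2 p.1)

private theorem WG_eq (G : InfinitePlace K → ℂ → ℂ) (k : InfinitePlace K → ℤ)
    (ν : InfinitePlace K → ℝ) (t : ℝ) : WG K G k ν t = ∫ p, Pg K G k ν t p := rfl

private theorem Gk_meas (hG : Tf G) (k : InfinitePlace K → ℤ) : Measurable (Gk K G k) := by
  have h1 : Measurable (fun q : (InfinitePlace K → ℝ) × (InfinitePlace K → ℝ) =>
      ek k q.2 * pF G q.1 (om true q.2) (1 : K)) :=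
    ((ek_meas K k).comp measurable_snd).mul (pF_meas hG (1 : K) true)
  exact h1.stronglyMeasurable.integral_prod_right'.measurable

private theorem Gk_bd (hG : Tf G) (k : InfinitePlace K → ℤ) (y : InfinitePlace K → ℝ) :
    ‖Gk K G k y‖ₑ ≤ volume (An K) * if B0 K (1 / 16) y then 1 else 0 := by
  unfold Gk
  refine (enorm_integral_le_lintegral_enorm _).trans ?_
  have h1 : ∀ θ : InfinitePlace K → ℝ, ‖ek k θ * ∏ v, G v
      (wv v (1 : K) y (om true θ))‖ₑ ≤ if B0 K (1 / 16) y then 1 else 0 := by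
    intro θ
    rw [enorm_mul, ← ofReal_norm (ek k θ), ek_norm, ENNReal.ofReal_one, one_mul]
    have h2 := pF_bd hG (1 : K) one_ne_zero y true θ
    simp only [map_one, Real.log_one, mul_zero, add_zero] at h2
    exact h2
  refine (lintegral_mono h1).trans (le_of_eq ?_)
  rw [lintegral_const, Measure.restrict_apply_univ, mul_comm]

private theorem Pg_meas (hG : Tf G) (hPU : T_PU) (k : InfinitePlace K → ℤ)
    (ν : InfinitePlace K → ℝ) (t : ℝ) : Measurable (Pg K G k ν t) := by
  have h1 : Continuous (fun p : logSpace K × ℝ => ec K ν p.1) :=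
    ((hPU K).2.2.2.2.1 ν).1.comp continuous_fst
  have h2 : Continuous (fun p : logSpace K × ℝ => cexp (t * p.2 * I)) := by fun_prop
  exact (h1.measurable.mul h2.measurable).mul ((Gk_meas hG k).comp (yc_cont K).measurable)

private theorem Pg_bd (hG : Tf G) (hPU : T_PU) (k : InfinitePlace K → ℤ)
    (ν : InfinitePlace K → ℝ) (t : ℝ) (p : logSpace K × ℝ) :
    ‖Pg K G k ν t p‖ₑ ≤ volume (An K) * Rk K (1 / 16) p := by
  unfold Pg
  have h1 : ‖ec K ν p.1‖ₑ = 1 := by
    rw [← ofReal_norm, ((hPU K).2.2.2.2.1 ν).2, ENNReal.ofReal_one]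
  have h2 : ‖cexp (t * p.2 * I)‖ₑ = 1 := by
    have : (t : ℂ) * p.2 * I = ((t * p.2 : ℝ) : ℂ) * I := by push_cast; ring
    rw [← ofReal_norm, this, Complex.norm_exp_ofReal_mul_I, ENNReal.ofReal_one]
  rw [enorm_mul, enorm_mul, h1, h2, one_mul, one_mul]
  exact Gk_bd hG k _

private theorem Pg_int (hG : Tf G) (hPU : T_PU) (k : InfinitePlace K → ℤ)
    (ν : InfinitePlace K → ℝ) (t : ℝ) : Integrable (Pg K G k ν t) := by
  refine ⟨(Pg_meas hG hPU k ν t).aestronglyMeasurable, ?_⟩
  refine lt_of_le_of_lt (lintegral_mono (Pg_bd hG hPU k ν t)) ?_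
  rw [lintegral_const_mul _ (Rk_meas K _)]
  exact ENNReal.mul_lt_top (An_fin K) (lt_top_iff_ne_top.2 (Rk_fin K _ (by norm_num)))

/-- the integrand -/
private noncomputable def Fg (cc : K → ℂ) (M : FI K) (G : InfinitePlace K → ℂ → ℂ)
    (k : InfinitePlace K → ℤ) (ν : InfinitePlace K → ℝ) (t : ℝ) (v : ℝ → ℂ) (s : Bool) (x : K)
    (p : logSpace K × ℝ × (InfinitePlace K → ℝ)) : ℂ :=
  ec K ν p.1 * cexp (t * p.2.1 * I) * (ek k p.2.2 * (cc x * v (Ideal.absNorm (idl K M x)) *
    pF G (yM K M p.2.1 (zs s p.1)) (om s p.2.2) x))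

private theorem Fg_meas (hG : Tf G) (hPU : T_PU) (cc : K → ℂ) (M : FI K)
    (k : InfinitePlace K → ℤ) (ν : InfinitePlace K → ℝ) (t : ℝ)
    (v : ℝ → ℂ) (s : Bool) (x : K) : Measurable (Fg cc M G k ν t v s x) := by
  unfold Fg
  have h1 : Measurable (fun p : logSpace K × ℝ × (InfinitePlace K → ℝ) => ec K ν p.1) :=
    ((hPU K).2.2.2.2.1 ν).1.measurable.comp measurable_fst
  have h2 : Measurable (fun p : logSpace K × ℝ × (InfinitePlace K → ℝ) =>
      cexp (t * p.2.1 * I)) := by
    have : Continuous (fun p : logSpace K × ℝ × (InfinitePlace K → ℝ) =>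
      cexp (t * p.2.1 * I)) := by fun_prop
    exact this.measurable
  have h3 : Measurable (fun p : logSpace K × ℝ × (InfinitePlace K → ℝ) => ek k p.2.2) :=
    (ek_meas K k).comp (measurable_snd.comp measurable_snd)
  have h5 : Measurable (fun p : logSpace K × ℝ × (InfinitePlace K → ℝ) =>
      ((yM K M p.2.1 (zs s p.1), p.2.2) : (InfinitePlace K → ℝ) × (InfinitePlace K → ℝ))) :=
    (yMz_meas M s).prodMk (measurable_snd.comp measurable_snd)
  have h4 : Measurable (fun p : logSpace K × ℝ × (InfinitePlace K → ℝ) =>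
      pF G (yM K M p.2.1 (zs s p.1)) (om s p.2.2) x) := by
    have h6 := Measurable.comp (pF_meas hG x s) h5
    exact h6
  generalize cc x * v (Ideal.absNorm (idl K M x)) = w0
  generalize hW : (fun p : logSpace K × ℝ × (InfinitePlace K → ℝ) =>
      pF G (yM K M p.2.1 (zs s p.1)) (om s p.2.2) x) = W at h4
  have h7 : ∀ p : logSpace K × ℝ × (InfinitePlace K → ℝ),
      pF G (yM K M p.2.1 (zs s p.1)) (om s p.2.2) x = W p := fun p => by rw [← hW]
  simp only [h7]
  exact (h1.mul h2).mul (h3.mul (h4.const_mul w0))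

/-- (UP) unfolding. -/
theorem pf_UP (hCG : U_CG) (hAG : U_AG) (hPU : T_PU) : W_UP := by
  intro K _ _ f hf χ ι _ M hM G t v hG hv
  set β : Ideal (𝓞 K) → ℂ := fun J => χ.ψ J * v (Ideal.absNorm J) *
    (Ideal.absNorm J : ℂ) ^ (-(t * I : ℂ)) with hβ
  set γ : Ideal (𝓞 K) → ℝ≥0∞ := fun J => ‖v (Ideal.absNorm J)‖ₑ * volume (An K) with hγ
  have hψ : ∀ J : Ideal (𝓞 K), ‖χ.ψ J‖ ≤ 1 := by
    intro J
    by_cases h1 : J = ⊥
    · rw [h1, χ.map_bot, norm_zero]
      exact zero_le_one
    · by_cases h2 : J ⊔ f = ⊤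
      · exact (χ.norm_one J h1 h2).le
      · rw [χ.eq_zero J h2, norm_zero]
        exact zero_le_one
  have hβs : Summable (fun J : NZI K => β J.1) := by
    refine Summable.of_norm_bounded (wt_sum K v hv) fun J => ?_
    have hN : 0 < Ideal.absNorm J.1 := by
      rw [Nat.pos_iff_ne_zero, Ne, Ideal.absNorm_eq_zero_iff]
      exact J.2
    have h2 : ‖(Ideal.absNorm J.1 : ℂ) ^ (-(t * I : ℂ))‖ = 1 := by
      rw [Complex.norm_natCast_cpow_of_pos hN]
      simp
    simp only [hβ]
    rw [norm_mul, norm_mul, h2, mul_one]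
    exact mul_le_of_le_one_left (norm_nonneg _) (hψ _)
  have hc : ∀ c : ι, ∫ p in Fd K ×ˢ (univ : Set ℝ) ×ˢ An K,
      ec K χ.ν p.1 * cexp (t * p.2.1 * I) *
      (ek χ.k p.2.2 * ∑' x : {x : K // x ∈ M c ∧ x ≠ 0}, cg χ (M c) x *
        v (Ideal.absNorm (idl K (M c) x)) *
          pF G (yM K (M c) p.2.1 (zs true p.1)) (om true p.2.2) x) =
      (torsionOrder K : ℂ) * (∑' J : {J : Ideal (𝓞 K) // Pri K (M c) J}, β J.1) *
        WG K G χ.k χ.ν t := by
    intro c
    have hL := hM.1 c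
    obtain ⟨hcg0, hcg1, -⟩ := hCG K f χ (M c) hf hL
    have h2 : ∫ p in Fd K ×ˢ (univ : Set ℝ) ×ˢ An K,
      ec K χ.ν p.1 * cexp (t * p.2.1 * I) *
      (ek χ.k p.2.2 * ∑' x : {x : K // x ∈ M c ∧ x ≠ 0}, cg χ (M c) x *
        v (Ideal.absNorm (idl K (M c) x)) *
          pF G (yM K (M c) p.2.1 (zs true p.1)) (om true p.2.2) x) =
        ∫ p in Fd K ×ˢ (univ : Set ℝ) ×ˢ An K, ∑' x : {x : K // x ∈ M c ∧ x ≠ 0},
          Fg (cg χ (M c)) (M c) G χ.k χ.ν t v true x p := by
      refine integral_congr_ae (ae_of_all _ fun p => ?_)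
      simp only
      unfold Fg
      rw [tsum_mul_left, tsum_mul_left]
    rw [h2, WG_eq]
    refine class_inf 1 (Or.inl rfl) (M c) hL (Pg K G χ.k χ.ν t)
      (Pg_meas hG hPU _ _ _) (Pg_int hG hPU _ _ _) (Rk K (1 / 16)) (Rk_meas K _)
      (Rk_fin K _ (by norm_num)) (Fg (cg χ (M c)) (M c) G χ.k χ.ν t v true)
      (Fg_meas hG hPU _ _ _ _ _ _ _) β γ ?_ ?_ ?_
    · simp only [hγ]
      rw [ENNReal.tsum_mul_right]
      exact ENNReal.mul_ne_top (wt_fin K v hv (M c)) (An_fin K).ne
    · intro x hx hx0 z τ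
      have h4 := norm_idl K (M c) hL x hx hx0
      have h5 := yM_zl K (M c) hL x hx hx0 τ z
      have h6 := cpow_norm K (idl K (M c) x) h4.1 t τ
      have h7 := ec_zl_pos K hPU χ.ν χ.norm_zero x hx0 z
      have h8 : ∀ θ : InfinitePlace K → ℝ,
          Fg (cg χ (M c)) (M c) G χ.k χ.ν t v true x (z, τ, θ) =
          (ec K χ.ν z * cexp (t * τ * I) * (cg χ (M c) x * v (Ideal.absNorm (idl K (M c) x)))) *
          (ek χ.k θ * ∏ w, G w (wv w x (yM K (M c) τ z) (om true θ))) := by
        intro θ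
        unfold Fg pF zs
        simp only [if_true]
        ring
      simp only [h8]
      rw [integral_const_mul, rot_p K G χ.k _ x hx0, h5]
      unfold Pg
      rw [h7, one_smul, hcg0 x hx hx0]
      simp only [hβ]
      have h9 : (starRingEnd ℂ) (ag χ.k x) * ag χ.k x = 1 := by
        rw [mul_comm, Complex.mul_conj, Complex.normSq_eq_norm_sq, (hAG K χ.k).2.1 x hx0]
        norm_num
      linear_combination (ec K χ.ν z * cexp (t * τ * I) * (starRingEnd ℂ) (ph χ.ν x) *
        χ.ψ (idl K (M c) x) * v (Ideal.absNorm (idl K (M c) x)) *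
        Gk K G χ.k
          (yc K (τ + Real.log (Ideal.absNorm (idl K (M c) x))) (z + zl K x))) * h9 -
        (χ.ψ (idl K (M c) x) * v (Ideal.absNorm (idl K (M c) x)) * ec K χ.ν z *
          (starRingEnd ℂ) (ph χ.ν x) *
          Gk K G χ.k
          (yc K (τ + Real.log (Ideal.absNorm (idl K (M c) x))) (z + zl K x))) * h6
    · intro x hx hx0 z τ
      have h5 := yM_zl K (M c) hL x hx hx0 τ z
      have h6 : ∀ θ : InfinitePlace K → ℝ,
          ‖Fg (cg χ (M c)) (M c) G χ.k χ.ν t v true x (z, τ, θ)‖ₑ ≤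
          ‖v (Ideal.absNorm (idl K (M c) x))‖ₑ *
          Rk K (1 / 16) ((1 : ℝ) • z + zl K x,
            τ + Real.log (Ideal.absNorm (idl K (M c) x))) := by
        intro θ
        unfold Fg
        have e1 : ‖ec K χ.ν z‖ₑ = 1 := by
          rw [← ofReal_norm, ((hPU K).2.2.2.2.1 χ.ν).2, ENNReal.ofReal_one]
        have e2 : ‖cexp (t * τ * I)‖ₑ = 1 := by
          have : (t : ℂ) * τ * I = ((t * τ : ℝ) : ℂ) * I := by push_cast; ring
          rw [← ofReal_norm, this, Complex.norm_exp_ofReal_mul_I, ENNReal.ofReal_one]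
        have e3 : ‖ek χ.k θ‖ₑ = 1 := by
          rw [← ofReal_norm, ek_norm, ENNReal.ofReal_one]
        have e4 : ‖cg χ (M c) x‖ₑ ≤ 1 := by
          rw [← ofReal_norm, ← ENNReal.ofReal_one]
          exact ENNReal.ofReal_le_ofReal (hcg1 x hx)
        have e5 := pF_bd hG x hx0 (yM K (M c) τ z) true θ
        have e6 : Rk K (1 / 16) ((1 : ℝ) • z + zl K x,
            τ + Real.log (Ideal.absNorm (idl K (M c) x))) =
            if B0 K (1 / 16) (fun v => yM K (M c) τ z v + 2 * Real.log (v x)) then 1 else 0 := by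
          unfold Rk
          rw [h5, one_smul]
        rw [e6]
        simp only [zs, if_true, enorm_mul, e1, e2, e3, one_mul]
        calc ‖cg χ (M c) x‖ₑ * ‖v (Ideal.absNorm (idl K (M c) x))‖ₑ *
            ‖pF G (yM K (M c) τ z) (om true θ) x‖ₑ ≤
            1 * ‖v (Ideal.absNorm (idl K (M c) x))‖ₑ *
            (if B0 K (1 / 16) (fun v => yM K (M c) τ z v + 2 * Real.log (v x)) then 1 else 0) :=
              mul_le_mul' (mul_le_mul' e4 le_rfl) e5
          _ = _ := by rw [one_mul]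
      refine (lintegral_mono h6).trans (le_of_eq ?_)
      rw [lintegral_const, Measure.restrict_apply_univ]
      simp only [hγ]
      ring
  rw [Finset.sum_congr rfl fun c _ => hc c, ← sum_cls K M hM β hβs, Finset.mul_sum]
  refine Finset.sum_congr rfl fun c _ => ?_
  ring

end

end Pool.Agent.H70.SWL
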